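import Pool.Agent.Helper87.DS.STARLIM

set_option autoImplicit false

/-! Packet KEREV of MP_52cd29_ag. -/

namespace Pool.Agent.Helper87.DS

open MvPolynomial Pool.Agent.Helper68.DS

lemma cr_left (a b : Fin 3 → ℂ) : a ⬝ᵥ cr a b = 0 := by
  simp only [dotProduct, Fin.sum_univ_three, cr, Matrix.cons_val_zero, Matrix.cons_val_one,
    Matrix.cons_val_two, Matrix.head_cons, Matrix.tail_cons]
  ring

lemma cr_right (a b : Fin 3 → ℂ) : b ⬝ᵥ cr a b = 0 := by
  simp only [dotProduct, Fin.sum_univ_three, cr, Matrix.cons_val_zero, Matrix.cons_val_one,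
    Matrix.cons_val_two, Matrix.head_cons, Matrix.tail_cons]
  ring

lemma exists_rep {k : ℕ} (e : Edge k) : ∃ p : Fin k × Fin k, ∃ h : p.1 ≠ p.2, e = ed p.1 p.2 h := by
  obtain ⟨e, he⟩ := e
  induction e using Sym2.ind with
  | _ i j =>
    rw [Sym2.mk_isDiag_iff] at he
    exact ⟨(i, j), he, rfl⟩

/-- A representative of an unordered pair. -/
noncomputable def rep {k : ℕ} (e : Edge k) : Fin k × Fin k := (exists_rep e).choose

lemma rep_ne {k : ℕ} (e : Edge k) : (rep e).1 ≠ (rep e).2 := (exists_rep e).choose_spec.choose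

lemma rep_ed {k : ℕ} (e : Edge k) : e = ed (rep e).1 (rep e).2 (rep_ne e) :=
  (exists_rep e).choose_spec.choose_spec

lemma ed_eq_iff {k : ℕ} {i j i' j' : Fin k} (h : i ≠ j) (h' : i' ≠ j') :
    ed i j h = ed i' j' h' ↔ (i = i' ∧ j = j') ∨ (i = j' ∧ j = i') := by
  unfold ed
  rw [Subtype.mk.injEq, Sym2.eq_iff]

lemma ed_comm {k : ℕ} {i j : Fin k} (h : i ≠ j) : ed i j h = ed j i h.symm := by
  rw [ed_eq_iff]
  exact Or.inr ⟨rfl, rfl⟩

section

variable {k : ℕ} {lam : Fin k → Fin 3 → ℂ}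

lemma Lam2_ne (hG : Gen lam) {i j : Fin k} (hij : i ≠ j) :
    eval (cr (lam i) (lam j)) (Lam2 lam i j) ≠ 0 := by
  unfold Lam2
  rw [map_prod, Finset.prod_ne_zero_iff]
  intro l hl
  rw [Finset.mem_erase, Finset.mem_erase] at hl
  rw [eval_lf]
  exact hG.2 l i j hl.2.1 hij hl.1

lemma Lam2_zero {i j i' j' : Fin k} (hij : i ≠ j) (hij' : i' ≠ j')
    (h : ed i j hij ≠ ed i' j' hij') : eval (cr (lam i') (lam j')) (Lam2 lam i j) = 0 := by
  unfold Lam2
  rw [map_prod, Finset.prod_eq_zero_iff]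
  rw [Ne, ed_eq_iff] at h
  by_cases h1 : i' = i ∨ i' = j
  · refine ⟨j', ?_, ?_⟩
    · rw [Finset.mem_erase, Finset.mem_erase]
      refine ⟨?_, ?_, Finset.mem_univ _⟩
      · rintro rfl
        rcases h1 with h1 | h1
        · exact h (Or.inl ⟨h1.symm, rfl⟩)
        · exact hij' h1
      · rintro rfl
        rcases h1 with h1 | h1
        · exact hij' h1
        · exact h (Or.inr ⟨rfl, h1.symm⟩)
    · rw [eval_lf]
      exact cr_right _ _
  · rw [not_or] at h1
    refine ⟨i', ?_, ?_⟩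
    · rw [Finset.mem_erase, Finset.mem_erase]
      exact ⟨h1.2, h1.1, Finset.mem_univ _⟩
    · rw [eval_lf]
      exact cr_left _ _

lemma Lam_zero (i : Fin k) {i' j' : Fin k} (hij' : i' ≠ j') :
    eval (cr (lam i') (lam j')) (Lam lam i) = 0 := by
  unfold Lam
  rw [map_prod, Finset.prod_eq_zero_iff]
  by_cases h1 : i' = i
  · refine ⟨j', ?_, ?_⟩
    · rw [Finset.mem_erase]
      exact ⟨fun h => hij' (h1.trans h.symm), Finset.mem_univ _⟩
    · rw [eval_lf]
      exact cr_right _ _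
  · refine ⟨i', ?_, ?_⟩
    · rw [Finset.mem_erase]
      exact ⟨h1, Finset.mem_univ _⟩
    · rw [eval_lf]
      exact cr_left _ _

lemma Lam_hom (lam : Fin k → Fin 3 → ℂ) (i : Fin k) : (Lam lam i).IsHomogeneous (k - 1) := by
  unfold Lam
  have h := IsHomogeneous.prod (Finset.univ.erase i) (fun l => lf (lam l)) (fun _ => 1)
    (fun l _ => lf_hom (lam l))
  rw [Finset.sum_const, Finset.card_erase_of_mem (Finset.mem_univ i), Finset.card_univ,
    Fintype.card_fin, smul_eq_mul, mul_one] at h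
  exact h

lemma Lam2_hom (lam : Fin k → Fin 3 → ℂ) {i j : Fin k} (hij : i ≠ j) :
    (Lam2 lam i j).IsHomogeneous (k - 2) := by
  unfold Lam2
  have h := IsHomogeneous.prod ((Finset.univ.erase i).erase j) (fun l => lf (lam l)) (fun _ => 1)
    (fun l _ => lf_hom (lam l))
  rw [Finset.sum_const, Finset.card_erase_of_mem (Finset.mem_erase.2 ⟨hij.symm,
    Finset.mem_univ j⟩), Finset.card_erase_of_mem (Finset.mem_univ i), Finset.card_univ,
    Fintype.card_fin, smul_eq_mul, mul_one] at h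
  exact h

lemma Theta_apply (lam : Fin k → Fin 3 → ℂ) (ξ : Fin k → Fin 3 → ℂ) :
    Theta lam ξ = ∑ i, lf (ξ i) * Lam lam i := rfl

lemma Theta_mem (hk : 1 ≤ k) (lam : Fin k → Fin 3 → ℂ) (ξ : Fin k → Fin 3 → ℂ) :
    Theta lam ξ ∈ HS 3 k := by
  rw [Theta_apply]
  apply Submodule.sum_mem
  intro i _
  rw [mem_homogeneousSubmodule]
  have h := (lf_hom (ξ i)).mul (Lam_hom lam i)
  have h2 : 1 + (k - 1) = k := by omega
  rw [h2] at h
  exact h

lemma Theta_zero (lam : Fin k → Fin 3 → ℂ) (ξ : Fin k → Fin 3 → ℂ) {i j : Fin k} (hij : i ≠ j) :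
    eval (cr (lam i) (lam j)) (Theta lam ξ) = 0 := by
  rw [Theta_apply, map_sum]
  apply Finset.sum_eq_zero
  intro l _
  rw [map_mul, Lam_zero l hij, mul_zero]

/-- The evaluation at the nodes. -/
noncomputable def EvN (lam : Fin k → Fin 3 → ℂ) : ↥(HS 3 k) →ₗ[ℂ] (Edge k → ℂ) where
  toFun h := fun e => eval (cr (lam (rep e).1) (lam (rep e).2)) h.1
  map_add' h h' := by
    funext e
    simp
  map_smul' c h := by
    funext e
    simp [smul_eval]

lemma EvN_range (hk : 2 ≤ k) (hG : Gen lam) : LinearMap.range (EvN lam) = ⊤ := by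
  classical
  rw [eq_top_iff]
  intro v _
  have hv : v = ∑ e, v e • (Pi.single e (1 : ℂ) : Edge k → ℂ) := by
    funext e'
    simp [Finset.sum_apply, Pi.single_apply]
  rw [hv]
  apply Submodule.sum_mem
  intro e _
  apply Submodule.smul_mem
  set i := (rep e).1 with hi
  set j := (rep e).2 with hj
  have hij : i ≠ j := rep_ne e
  set p := cr (lam i) (lam j) with hp
  have hp0 : p ≠ 0 := hG.1 i j hij
  obtain ⟨a, ha⟩ : ∃ a, p a ≠ 0 := by
    by_contra h
    push Not at h
    exact hp0 (funext h)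
  set q : MvPolynomial (Fin 3) ℂ := Lam2 lam i j * lf (Pi.single a 1) ^ 2 with hq
  have hqm : q ∈ HS 3 k := by
    rw [mem_homogeneousSubmodule]
    have h := (Lam2_hom lam hij).mul ((lf_hom (Pi.single a (1 : ℂ))).pow 2)
    have h2 : k - 2 + 1 * 2 = k := by omega
    rw [h2] at h
    exact h
  have hqp : eval p q ≠ 0 := by
    rw [hq, map_mul, map_pow, eval_lf, single_dotProduct, one_mul]
    exact mul_ne_zero (Lam2_ne hG hij) (pow_ne_zero _ ha)
  refine ⟨(eval p q)⁻¹ • ⟨q, hqm⟩, ?_⟩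
  funext e'
  rw [map_smul]
  show (eval p q)⁻¹ * eval (cr (lam (rep e').1) (lam (rep e').2)) q = _
  by_cases he : e' = e
  · subst he
    rw [Pi.single_eq_same]
    exact inv_mul_cancel₀ hqp
  · rw [Pi.single_eq_of_ne he]
    have : eval (cr (lam (rep e').1) (lam (rep e').2)) q = 0 := by
      rw [hq, map_mul, Lam2_zero hij (rep_ne e'), zero_mul]
      rw [← rep_ed e', ← rep_ed e]
      exact fun h => he h.symm
    rw [this, mul_zero]

lemma card_edge (k : ℕ) : Fintype.card (Edge k) = k.choose 2 := by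
  have h := Sym2.card_subtype_not_diag (α := Fin k)
  rw [Fintype.card_fin] at h
  rw [← h]

lemma choose_two_add (k : ℕ) : (2 + k).choose 2 = k.choose 2 + (2 * k + 1) := by
  have h1 := Nat.choose_succ_succ' (k + 1) 1
  have h2 := Nat.choose_succ_succ' k 1
  rw [Nat.choose_one_right] at h1 h2
  norm_num at h1 h2
  rw [add_comm 2 k, h1, h2]
  omega

lemma finrank_src (k : ℕ) : Module.finrank ℂ (Fin k → Fin 3 → ℂ) = 3 * k := by
  rw [Module.finrank_pi_fintype]
  simp [mul_comm]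

end

theorem KEREV (h1 : DIM_stmt) : KEREV_stmt := by
  intro k hk lam hG hker h hh hz
  classical
  have : FiniteDimensional ℂ ↥(HS 3 k) := (h1 2 k).1
  have hdim := (h1 2 k).2
  -- the kernel of the evaluation
  have e1 := LinearMap.finrank_range_add_finrank_ker (EvN lam)
  rw [EvN_range hk hG, finrank_top, Module.finrank_fintype_fun_eq_card, card_edge, hdim,
    choose_two_add] at e1
  -- the range of `Theta`
  set TH : (Fin k → Fin 3 → ℂ) →ₗ[ℂ] ↥(HS 3 k) :=
    (Theta lam).codRestrict (HS 3 k) (Theta_mem (by omega) lam) with hTH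
  have e2 := LinearMap.finrank_range_add_finrank_ker TH
  rw [finrank_src] at e2
  have e3 : LinearMap.ker TH = KH lam ⊥ := by
    rw [hTH, LinearMap.ker_codRestrict]
    rfl
  rw [e3] at e2
  have hle : LinearMap.range TH ≤ LinearMap.ker (EvN lam) := by
    rintro x ⟨ξ, rfl⟩
    rw [LinearMap.mem_ker]
    funext e
    exact Theta_zero lam ξ (rep_ne e)
  have heq : LinearMap.range TH = LinearMap.ker (EvN lam) :=
    Submodule.eq_of_le_of_finrank_le hle (by omega)
  have hmem : (⟨h, hh⟩ : ↥(HS 3 k)) ∈ LinearMap.ker (EvN lam) := by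
    rw [LinearMap.mem_ker]
    funext e
    exact hz _ _ (rep_ne e)
  rw [← heq] at hmem
  obtain ⟨ξ, hξ⟩ := hmem
  exact ⟨ξ, congrArg Subtype.val hξ⟩

end Pool.Agent.Helper87.DS
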