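import Pool.Agent.Helper87.DS.KEREV

set_option autoImplicit false

/-! Packet PARTZ of MP_52cd29_ag. -/

namespace Pool.Agent.Helper87.DS

open MvPolynomial Pool.Agent.Helper68.DS

section

variable {k : ℕ} {lam : Fin k → Fin 3 → ℂ} {H : Submodule ℂ (MvPolynomial (Fin 3) ℂ)}

lemma HV_mono {A B : Finset (Edge k)} (h : A ⊆ B) : HV lam H A ≤ HV lam H B := by
  rintro x ⟨h1, h2⟩
  exact ⟨h1, fun i j hij hB => h2 i j hij (fun hA => hB (h hA))⟩

lemma HV_inf [DecidableEq (Edge k)] (A B : Finset (Edge k)) :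
    HV lam H A ⊓ HV lam H B ≤ HV lam H (A ∩ B) := by
  rintro x ⟨⟨h1, h2⟩, ⟨_, h4⟩⟩
  refine ⟨h1, fun i j hij hAB => ?_⟩
  by_cases hA : ed i j hij ∈ A
  · exact h4 i j hij (fun hB => hAB (Finset.mem_inter.2 ⟨hA, hB⟩))
  · exact h2 i j hij hA

lemma HV_le (A : Finset (Edge k)) : HV lam H A ≤ H := fun _ h => h.1

lemma ZV_mono {A B : Finset (Edge k)} (h : A ⊆ B) : ZV lam A ≤ ZV lam B := by
  intro x h2 i j hij hB
  exact h2 i j hij (fun hA => hB (h hA))

lemma ZV_inf [DecidableEq (Edge k)] (A B : Finset (Edge k)) :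
    ZV lam A ⊓ ZV lam B ≤ ZV lam (A ∩ B) := by
  rintro x ⟨h2, h4⟩ i j hij hAB
  by_cases hA : ed i j hij ∈ A
  · exact h4 i j hij (fun hB => hAB (Finset.mem_inter.2 ⟨hA, hB⟩))
  · exact h2 i j hij hA

lemma super_of {V : Type} [AddCommGroup V] [Module ℂ V] [DecidableEq (Edge k)]
    (W : Finset (Edge k) → Submodule ℂ V) [∀ A, FiniteDimensional ℂ ↥(W A)]
    (hm : ∀ A B, A ⊆ B → W A ≤ W B) (hi : ∀ A B, W A ⊓ W B ≤ W (A ∩ B)) (A B : Finset (Edge k)) :
    Module.finrank ℂ ↥(W A) + Module.finrank ℂ ↥(W B) ≤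
      Module.finrank ℂ ↥(W (A ∪ B)) + Module.finrank ℂ ↥(W (A ∩ B)) := by
  rw [← Submodule.finrank_sup_add_finrank_inf_eq]
  exact Nat.add_le_add
    (Submodule.finrank_mono (sup_le (hm _ _ Finset.subset_union_left)
      (hm _ _ Finset.subset_union_right)))
    (Submodule.finrank_mono (hi A B))

lemma lam_ne (hk : 2 ≤ k) (hG : Gen lam) (i : Fin k) : lam i ≠ 0 := by
  obtain ⟨j, hj⟩ : ∃ j : Fin k, j ≠ i := by
    have : Nontrivial (Fin k) := Fin.nontrivial_iff_two_le.2 hk
    exact exists_ne i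
  intro h
  apply hG.1 i j hj.symm
  funext a
  simp only [cr, h, Pi.zero_apply, zero_mul, sub_self]
  fin_cases a <;> simp

/-- `c ↦ (c_i λ_i)_i`. -/
noncomputable def del (lam : Fin k → Fin 3 → ℂ) : (Fin k → ℂ) →ₗ[ℂ] (Fin k → Fin 3 → ℂ) where
  toFun c := fun i => c i • lam i
  map_add' c c' := by
    funext i
    rw [Pi.add_apply, Pi.add_apply, add_smul]
  map_smul' t c := by
    funext i
    rw [Pi.smul_apply, Pi.smul_apply, RingHom.id_apply, smul_assoc]

lemma del_inj (h0 : ∀ i, lam i ≠ 0) : Function.Injective (del lam) := by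
  rw [← LinearMap.ker_eq_bot, LinearMap.ker_eq_bot']
  intro c hc
  funext i
  have h1 := congrFun hc i
  rcases smul_eq_zero.1 h1 with h2 | h2
  · exact h2
  · exact absurd h2 (h0 i)

lemma Theta_del (lam : Fin k → Fin 3 → ℂ) (c : Fin k → ℂ) :
    Theta lam (del lam c) = (∑ i, c i) • ∏ l, lf (lam l) := by
  rw [Theta_apply, Finset.sum_smul]
  apply Finset.sum_congr rfl
  intro i _
  show lf (c i • lam i) * Lam lam i = _
  rw [lf_smul, smul_mul_assoc]
  unfold Lam
  rw [Finset.mul_prod_erase Finset.univ (fun l => lf (lam l)) (Finset.mem_univ i)]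

lemma KH_bot_ge (h0 : ∀ i, lam i ≠ 0) : k - 1 ≤ Module.finrank ℂ ↥(KH lam ⊥) := by
  set σ : (Fin k → ℂ) →ₗ[ℂ] ℂ := ∑ i, LinearMap.proj i with hσ
  have hσa : ∀ c, σ c = ∑ i, c i := by
    intro c
    rw [hσ, LinearMap.sum_apply]
    rfl
  have e1 := LinearMap.finrank_range_add_finrank_ker σ
  have e2 : Module.finrank ℂ ↥(LinearMap.range σ) ≤ 1 := by
    have := Submodule.finrank_le (LinearMap.range σ)
    rwa [Module.finrank_self] at this
  rw [Module.finrank_fintype_fun_eq_card, Fintype.card_fin] at e1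
  have e3 : Module.finrank ℂ ↥(LinearMap.ker σ) =
      Module.finrank ℂ ↥((LinearMap.ker σ).map (del lam)) :=
    (Submodule.equivMapOfInjective (del lam) (del_inj h0) (LinearMap.ker σ)).finrank_eq
  have e4 : (LinearMap.ker σ).map (del lam) ≤ KH lam ⊥ := by
    rintro x ⟨c, hc, rfl⟩
    show Theta lam (del lam c) ∈ (⊥ : Submodule ℂ (MvPolynomial (Fin 3) ℂ))
    have hc' : σ c = 0 := hc
    rw [Theta_del, ← hσa, hc', zero_smul]
    exact Submodule.zero_mem _
  have e5 := Submodule.finrank_mono e4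
  omega

lemma exists_perm {i j i' j' : Fin k} (h : i ≠ j) (h' : i' ≠ j') :
    ∃ σ : Equiv.Perm (Fin k), σ i = i' ∧ σ j = j' := by
  refine ⟨Equiv.swap (Equiv.swap i i' j) j' * Equiv.swap i i', ?_, ?_⟩
  · rw [Equiv.Perm.mul_apply, Equiv.swap_apply_left]
    apply Equiv.swap_apply_of_ne_of_ne
    · intro h1
      apply h
      apply (Equiv.swap i i').injective
      rw [Equiv.swap_apply_left, ← h1]
    · exact h'
  · rw [Equiv.Perm.mul_apply, Equiv.swap_apply_left]

lemma exists_edPerm (x y : Edge k) : ∃ σ : Equiv.Perm (Fin k), edPerm σ x = y := by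
  obtain ⟨σ, h1, h2⟩ := exists_perm (rep_ne x) (rep_ne y)
  refine ⟨σ, ?_⟩
  rw [rep_ed x, rep_ed y, edPerm_ed, ed_eq_iff]
  exact Or.inl ⟨h1, h2⟩

end

theorem PARTZ (h1 : PART_stmt) (h2 : INV_stmt) (h3 : BKER_stmt) (h4 : KEREV_stmt)
    (h5 : DIM_stmt) : PARTZ_stmt := by
  intro k hk H hH hdim lam hG hker hinv
  classical
  have hfin : FiniteDimensional ℂ ↥(HS 3 k) := (h5 2 k).1
  have hfinH : FiniteDimensional ℂ ↥H := Submodule.finiteDimensional_of_le hH
  have hfinV : ∀ A, FiniteDimensional ℂ ↥(HV lam H A) := fun A =>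
    Submodule.finiteDimensional_of_le (HV_le A)
  have hB := h3 k hk lam hG
  have h0 := lam_ne hk hG
  set w : Finset (Edge k) → ℕ := fun A => Module.finrank ℂ ↥(HV lam H A) with hw
  set z : Finset (Edge k) → ℕ := fun A => Module.finrank ℂ ↥(ZV lam A) with hz
  set b : Finset (Edge k) → ℕ := fun A => z A - (k + 3) with hb
  have hzge : ∀ A, k + 3 ≤ z A := by
    intro A
    rw [← hB]
    exact Submodule.finrank_mono (ZV_mono (Finset.empty_subset A))
  have hbz : ∀ A, b A + (k + 3) = z A := fun A => Nat.sub_add_cancel (hzge A)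
  have hwS : ∀ A B, w A + w B ≤ w (A ∪ B) + w (A ∩ B) := fun A B =>
    super_of (fun A => HV lam H A) (fun _ _ h => HV_mono h) (fun A B => HV_inf A B) A B
  have hzS : ∀ A B, z A + z B ≤ z (A ∪ B) + z (A ∩ B) := fun A B =>
    super_of (fun A => ZV lam A) (fun _ _ h => ZV_mono h) (fun A B => ZV_inf A B) A B
  have hbS : ∀ A B, b A + b B ≤ b (A ∪ B) + b (A ∩ B) := by
    intro A B
    have e1 := hzS A B
    have e2 := hbz A
    have e3 := hbz B
    have e4 := hbz (A ∪ B)
    have e5 := hbz (A ∩ B)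
    omega
  -- the empty set
  have hKle : KH lam ⊥ ≤ KH lam H := Submodule.comap_mono bot_le
  have hK1 : Module.finrank ℂ ↥(KH lam (⊥ : Submodule ℂ (MvPolynomial (Fin 3) ℂ))) ≤ k - 1 :=
    (Submodule.finrank_mono hKle).trans hker
  have hKeq : KH lam ⊥ = KH lam H :=
    Submodule.eq_of_le_of_finrank_le hKle (hker.trans (KH_bot_ge h0))
  have hw0 : w ∅ = 0 := by
    have : HV lam H ∅ = ⊥ := by
      rw [eq_bot_iff]
      rintro x ⟨hx1, hx2⟩
      obtain ⟨ξ, hξ⟩ := h4 k hk lam hG hK1 x (hH hx1)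
        (fun i j hij => hx2 i j hij (Finset.notMem_empty _))
      have hξ2 : ξ ∈ KH lam H := by
        show Theta lam ξ ∈ H
        rw [hξ]
        exact hx1
      rw [← hKeq] at hξ2
      have hξ3 : Theta lam ξ ∈ (⊥ : Submodule ℂ (MvPolynomial (Fin 3) ℂ)) := hξ2
      rw [hξ] at hξ3
      exact hξ3
    rw [hw]
    simp only
    rw [this, finrank_bot]
  have hb0 : b ∅ = 0 := by
    have := hbz ∅
    have e : z ∅ = k + 3 := hB
    omega
  -- the full set
  have hwu : w Finset.univ ≤ Module.finrank ℂ ↥H := Submodule.finrank_mono (HV_le _)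
  have hzu : z Finset.univ ≤ 3 * k := by
    rw [← finrank_src k]
    exact Submodule.finrank_le _
  have hcard : (Finset.univ : Finset (Edge k)).card = k.choose 2 := by
    rw [Finset.card_univ, card_edge]
  have hch := choose_two_add k
  rw [add_comm 2 k] at hch
  -- invariance
  have hf := h2 (Edge k) (fun A => (w A : ℤ) + b A - A.card) {τ | ∃ σ, τ = edPerm σ} ?_ ?_ ?_
  rotate_left
  · intro A B
    have e1 := hwS A B
    have e2 := hbS A B
    have e3 := Finset.card_union_add_card_inter A B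
    have e1' : (w A : ℤ) + w B ≤ w (A ∪ B) + w (A ∩ B) := by exact_mod_cast e1
    have e2' : (b A : ℤ) + b B ≤ b (A ∪ B) + b (A ∩ B) := by exact_mod_cast e2
    have e3' : ((A ∪ B).card : ℤ) + (A ∩ B).card = A.card + B.card := by exact_mod_cast e3
    linarith
  · intro x y
    obtain ⟨σ, hσ⟩ := exists_edPerm x y
    exact ⟨edPerm σ, ⟨σ, rfl⟩, hσ⟩
  · rintro τ ⟨σ, rfl⟩ A
    have e1 : w (A.map (edPerm σ).toEmbedding) = w A := (hinv σ A).1
    have e2 : z (A.map (edPerm σ).toEmbedding) = z A := (hinv σ A).2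
    have e3 : b (A.map (edPerm σ).toEmbedding) = b A := by
      rw [hb]
      simp only
      rw [e2]
    rw [e1, e3, Finset.card_map]
  have hfle : ∀ A ⊆ (Finset.univ : Finset (Edge k)), w A + b A ≤ A.card := by
    intro A _
    have e1 := hf A
    have e2 : ((w ∅ : ℤ) + b ∅ - ((∅ : Finset (Edge k)).card : ℤ)) = 0 := by
      rw [hw0, hb0, Finset.card_empty]
      simp
    have e3 : ((w Finset.univ : ℤ) + b Finset.univ -
        ((Finset.univ : Finset (Edge k)).card : ℤ)) ≤ 0 := by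
      have e4 := hbz Finset.univ
      have e5 : w Finset.univ + b Finset.univ ≤ (Finset.univ : Finset (Edge k)).card := by
        rw [hcard]
        omega
      have e6 : (w Finset.univ : ℤ) + b Finset.univ ≤ ((Finset.univ : Finset (Edge k)).card : ℤ) := by
        exact_mod_cast e5
      linarith
    rw [e2] at e1
    have e7 := e1.trans (max_le le_rfl e3)
    have e8 : (w A : ℤ) + b A ≤ A.card := by linarith
    exact_mod_cast e8
  obtain ⟨Z, _, hZ1, hZ2⟩ := h1 (Edge k) Finset.univ w b (fun A B _ _ => hwS A B)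
    (fun A B _ _ => hbS A B) hfle
  refine ⟨Z, ?_, ?_⟩
  · intro h hh hz'
    have e1 : HV lam H (Finset.univ \ Z) = ⊥ := Submodule.finrank_eq_zero.1 hZ1
    have e2 : h ∈ HV lam H (Finset.univ \ Z) := by
      refine ⟨hh, fun i j hij hn => hz' i j hij ?_⟩
      by_contra hn2
      exact hn (Finset.mem_sdiff.2 ⟨Finset.mem_univ _, hn2⟩)
    rw [e1] at e2
    exact e2
  · have e1 : ZV lam ∅ = ZV lam Z := by
      apply Submodule.eq_of_le_of_finrank_le (ZV_mono (Finset.empty_subset Z))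
      rw [hB]
      have := hbz Z
      have e3 : z Z = k + 3 := by omega
      exact e3.le
    rw [e1]

end Pool.Agent.Helper87.DS
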