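import Pool.Agent.Helper68.DS.Goals2

set_option autoImplicit false

/-! Packet STARLIM of MP_52cd29_ag. -/

namespace Pool.Agent.Helper87.DS

open MvPolynomial Pool.Agent.Helper68.DS

lemma eval_lf {n : ℕ} (c p : Fin n → ℂ) : eval p (lf c) = c ⬝ᵥ p := by
  unfold lf
  rw [map_sum]
  simp [dotProduct]

lemma coeff_lf {n : ℕ} (c : Fin n → ℂ) (i : Fin n) :
    coeff (Finsupp.single i 1) (lf c) = c i := by
  classical
  unfold lf
  rw [coeff_sum]
  simp only [coeff_C_mul, coeff_X']
  rw [Finset.sum_eq_single i]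
  · simp
  · intro j _ hj
    rw [if_neg]
    · simp
    · intro h
      exact hj ((Finsupp.single_left_injective one_ne_zero) h)
  · intro h
    exact absurd (Finset.mem_univ i) h

lemma lf_ne_zero {n : ℕ} {c : Fin n → ℂ} (h : c ≠ 0) : lf c ≠ 0 := by
  intro h0
  apply h
  funext i
  rw [← coeff_lf c i, h0, coeff_zero]
  rfl

lemma lf_hom {n : ℕ} (c : Fin n → ℂ) : (lf c).IsHomogeneous 1 := by
  unfold lf
  apply IsHomogeneous.sum
  intro i _
  exact isHomogeneous_C_mul_X _ _

lemma lf_add {n : ℕ} (c c' : Fin n → ℂ) : lf (c + c') = lf c + lf c' := by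
  unfold lf
  rw [← Finset.sum_add_distrib]
  apply Finset.sum_congr rfl
  intro i _
  rw [Pi.add_apply, map_add, add_mul]

lemma lf_neg {n : ℕ} (c : Fin n → ℂ) : lf (-c) = - lf c := by
  unfold lf
  rw [← Finset.sum_neg_distrib]
  apply Finset.sum_congr rfl
  intro i _
  rw [Pi.neg_apply, map_neg, neg_mul]

lemma lf_smul {n : ℕ} (t : ℂ) (c : Fin n → ℂ) : lf (t • c) = t • lf c := by
  unfold lf
  rw [Finset.smul_sum]
  apply Finset.sum_congr rfl
  intro i _
  rw [Pi.smul_apply, smul_eq_mul, map_mul, Algebra.smul_def, algebraMap_eq, mul_assoc]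

section

variable {m : ℕ}

/-- The star matrices. -/
noncomputable def SN (n : Fin (m + 1) → Fin (m + 1) → Fin 3 → ℂ) :
    Matrix (Fin (m + 1)) (Fin (m + 1)) (MvPolynomial (Fin 3) ℂ) :=
  fun i j => if i < j then lf (n i j) else 0

lemma SN_sub (n : Fin (m + 1) → Fin (m + 1) → Fin 3 → ℂ) (hn : ∀ i j, n j i = - n i j)
    {i j : Fin (m + 1)} (hij : j ≠ i) : SN n i j - SN n j i = lf (n i j) := by
  unfold SN
  rcases lt_or_gt_of_ne hij with h | h
  · rw [if_neg (not_lt.2 h.le), if_pos h, hn i j, lf_neg]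
    ring
  · rw [if_pos h, if_neg (not_lt.2 h.le), sub_zero]

lemma lin_M (lam : Fin (m + 1) → Fin 3 → ℂ) (n : Fin (m + 1) → Fin (m + 1) → Fin 3 → ℂ) (t : ℂ) :
    IsLin (Matrix.diagonal (fun i => lf (lam i)) + t • SN n) := by
  intro a b
  rw [Matrix.add_apply, Matrix.smul_apply]
  apply IsHomogeneous.add
  · by_cases h : a = b
    · subst h
      rw [Matrix.diagonal_apply_eq]
      exact lf_hom _
    · rw [Matrix.diagonal_apply_ne _ h]
      exact isHomogeneous_zero _ _ _
  · unfold SN
    by_cases h : a < b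
    · rw [if_pos h, ← lf_smul]
      exact lf_hom _
    · rw [if_neg h, smul_zero]
      exact isHomogeneous_zero _ _ _

end

theorem STARLIM (h1 : PM_stmt) (h2 : SC_stmt) (h3 : ADJD_stmt) (h4 : BASECH_stmt)
    (h5 : DIM_stmt) : STARLIM_stmt := by
  intro m H hH lam hlam n hn
  classical
  set R := MvPolynomial (Fin 3) ℂ with hR
  set d : Fin (m + 1) → R := fun i => lf (lam i) with hd
  set N : Matrix (Fin (m + 1)) (Fin (m + 1)) R := SN n with hN
  have hd0 : ∀ i, d i ≠ 0 := fun i => lf_ne_zero (hlam i)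
  have hex : ∀ i j : Fin (m + 1), ∃ g : ℂ → R, IsPolyMap g ∧ (i ≠ j → ∀ t : ℂ,
      (Matrix.diagonal d + t • N).adjugate i j =
      - (t • (N i j * ∏ l ∈ (Finset.univ.erase i).erase j, d l)) + t ^ 2 • g t) := by
    intro i j
    by_cases hij : i = j
    · exact ⟨fun _ => 0, h1.const _ _, fun h => absurd hij h⟩
    · obtain ⟨g, hg, hg'⟩ := h3 R (m + 1) d N hd0 i j hij
      exact ⟨g, hg, fun _ => hg'⟩
  choose g hgP hg using hex
  set G : Fin (m + 1) → ℂ → R := fun i t => ∑ j ∈ Finset.univ.erase i, (g i j t - g j i t) with hG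
  set F : (Fin 3 × Fin (m + 1)) ⊕ (Fin 3 × Fin (m + 1)) → ℂ → R := fun p t => match p with
    | Sum.inl q => X q.1 * ∑ j, (Matrix.diagonal d + t • N).adjugate q.2 j
    | Sum.inr q => X q.1 * (gg lam n q.2 - t • G q.2 t) with hF
  have hadjP : ∀ i j, IsPolyMap fun t : ℂ => (Matrix.diagonal d + t • N).adjugate i j := by
    intro i j
    refine h1.adj (Fin (m + 1)) R (fun t => Matrix.diagonal d + t • N) ?_ i j
    intro a b
    exact h1.line R (Matrix.diagonal d a b) (N a b)
  have hFP : ∀ p, IsPolyMap (F p) := by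
    rintro (q | q)
    · exact h1.mul R _ _ (h1.const R _) (h1.sum _ _ R _ (fun j _ => hadjP q.2 j))
    · refine h1.mul R _ _ (h1.const R _) (h1.sub R _ _ (h1.const R _) (h1.tsmul R _ ?_))
      exact h1.sum _ _ R _ (fun j _ => h1.sub R _ _ (hgP _ _) (hgP _ _))
  haveI hfin : FiniteDimensional ℂ ↥(HS 3 (m + 1)) := (h5 2 (m + 1)).1
  haveI hfinH : FiniteDimensional ℂ ↥H := Submodule.finiteDimensional_of_le hH
  -- the value at `0`
  have hspan0 : Submodule.span ℂ (Set.range fun a => F a 0) = SS lam n := by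
    unfold SS
    rw [← Submodule.span_union]
    congr 1
    ext x
    simp only [Set.mem_range, Set.mem_union]
    constructor
    · rintro ⟨(q | q), rfl⟩
      · left
        refine ⟨q, ?_⟩
        simp only [hF, zero_smul, add_zero, Matrix.adjugate_diagonal]
        congr 1
        unfold Lam
        rw [Finset.sum_eq_single q.2]
        · rw [Matrix.diagonal_apply_eq]
        · intro j _ hj
          rw [Matrix.diagonal_apply_ne _ (Ne.symm hj)]
        · intro h
          exact absurd (Finset.mem_univ _) h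
      · right
        refine ⟨q, ?_⟩
        simp only [hF, zero_smul, sub_zero]
    · rintro (⟨q, rfl⟩ | ⟨q, rfl⟩)
      · refine ⟨Sum.inl q, ?_⟩
        simp only [hF, zero_smul, add_zero, Matrix.adjugate_diagonal]
        congr 1
        unfold Lam
        rw [Finset.sum_eq_single q.2]
        · rw [Matrix.diagonal_apply_eq]
        · intro j _ hj
          rw [Matrix.diagonal_apply_ne _ (Ne.symm hj)]
        · intro h
          exact absurd (Finset.mem_univ _) h
      · refine ⟨Sum.inr q, ?_⟩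
        simp only [hF, zero_smul, sub_zero]
  have hfinite := h2 R H ((Fin 3 × Fin (m + 1)) ⊕ (Fin 3 × Fin (m + 1))) F hFP 0
  obtain ⟨t, ht⟩ : ∃ t : ℂ, t ∉ ({t : ℂ | Module.finrank ℂ
      ↥(H ⊔ Submodule.span ℂ (Set.range fun a => F a t)) <
      Module.finrank ℂ ↥(H ⊔ Submodule.span ℂ (Set.range fun a => F a 0))} ∪ {0}) :=
    (hfinite.union (Set.finite_singleton 0)).exists_notMem
  rw [Set.mem_union, not_or, Set.mem_setOf_eq, not_lt, Set.mem_singleton_iff, hspan0] at ht
  obtain ⟨ht1, ht0⟩ := ht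
  obtain ⟨M', hM', hM'2⟩ := h4 m _ (lin_M lam n t)
  refine ⟨M', hM', ht1.trans ?_⟩
  haveI : FiniteDimensional ℂ ↥(tauM M') := by
    unfold tauM
    haveI h6 : FiniteDimensional ℂ ↥(Submodule.span ℂ
      (Set.range fun p : Fin 3 × Fin (m + 1) => X p.1 * M'.adjugate p.2 0)) :=
      FiniteDimensional.span_of_finite ℂ (Set.finite_range _)
    haveI h7 : FiniteDimensional ℂ ↥(Submodule.span ℂ
      (Set.range fun p : Fin 3 × Fin (m + 1) => X p.1 * M'.adjugate 0 p.2)) :=
      FiniteDimensional.span_of_finite ℂ (Set.finite_range _)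
    exact Submodule.finiteDimensional_sup _ _
  refine Submodule.finrank_mono (sup_le_sup_left ?_ H)
  rw [Submodule.span_le]
  rintro x ⟨(q | q), rfl⟩
  · exact (hM'2 q.1 q.2).1
  · -- the second kind
    have key : (∑ j, (Matrix.diagonal d + t • N).adjugate q.2 j) -
        (∑ j, (Matrix.diagonal d + t • N).adjugate j q.2) =
        - (t • (gg lam n q.2 - t • G q.2 t)) := by
      rw [← Finset.sum_sub_distrib, ← Finset.add_sum_erase _ _ (Finset.mem_univ q.2), sub_self,
        zero_add]
      have : ∀ j ∈ Finset.univ.erase q.2, (Matrix.diagonal d + t • N).adjugate q.2 j -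
          (Matrix.diagonal d + t • N).adjugate j q.2 =
          - (t • (lf (n q.2 j) * Lam2 lam q.2 j)) + t • (t • (g q.2 j t - g j q.2 t)) := by
        intro j hj
        have hj' : j ≠ q.2 := Finset.ne_of_mem_erase hj
        rw [hg q.2 j (Ne.symm hj') t, hg j q.2 hj' t, ← SN_sub n hn hj']
        unfold Lam2
        rw [Finset.erase_right_comm (a := j) (b := q.2)]
        simp only [hd, sub_mul, smul_sub, smul_smul, pow_two]
        abel
      rw [Finset.sum_congr rfl this, Finset.sum_add_distrib, Finset.sum_neg_distrib,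
        ← Finset.smul_sum, ← Finset.smul_sum, ← Finset.smul_sum]
      unfold gg
      simp only [hG, smul_sub, neg_sub]
      abel
    have h8 : F (Sum.inr q) t = - (t⁻¹ • (X q.1 * (∑ j, (Matrix.diagonal d + t • N).adjugate q.2 j)
        - X q.1 * (∑ j, (Matrix.diagonal d + t • N).adjugate j q.2))) := by
      rw [← mul_sub, key]
      simp only [hF]
      rw [mul_neg, smul_neg, neg_neg, mul_smul_comm, smul_smul, inv_mul_cancel₀ ht0, one_smul]
    show F (Sum.inr q) t ∈ tauM M'
    rw [h8]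
    exact Submodule.neg_mem _ (Submodule.smul_mem _ _ (Submodule.sub_mem _
      (hM'2 q.1 q.2).1 (hM'2 q.1 q.2).2))

end Pool.Agent.Helper87.DS
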